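import Pool.Agent.H.MP_431f4e_gt.Trig

namespace Pool.Agent.H.MP_fcccf2_gt

open Real Set Pool.Agent.H.MP_431f4e_gt

theorem zigzag (G : ℂ → ℝ) (b η : ℝ) (η0 : 0 < η)
    (G2 : ∀ u v, ‖u‖ ≤ 1 → ‖v‖ ≤ 1 → ‖u - v‖ ≤ η → |G v - G u| < 2 * b)
    (far : ∀ u v, ‖u‖ ≤ 1 → ‖v‖ ≤ 1 → 2 - η ≤ ‖u - v‖ → b < |G u - G v|) : False := by
  have b0 : 0 < b := by
    have := G2 0 0 (by simp) (by simp) (by simpa using η0.le)
    simp at this
    linarith
  obtain ⟨n, hn⟩ := exists_nat_gt (π / η)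
  have n0 : (0 : ℝ) < n := lt_trans (by positivity) hn
  have hn' : π / n ≤ η := by
    rw [div_lt_iff₀ η0] at hn
    rw [div_le_iff₀ n0]
    linarith
  let e : ℕ → ℂ := fun k => Complex.exp (Complex.I * ((π * k / n : ℝ) : ℂ))
  have e1 : ∀ k, ‖e k‖ = 1 := fun k => Complex.norm_exp_I_mul_ofReal _
  have e1' : ∀ k, ‖e k‖ ≤ 1 := fun k => (e1 k).le
  have e2' : ∀ k, ‖-e k‖ ≤ 1 := fun k => by rw [norm_neg]; exact e1' k
  have e2 : ∀ k, ‖e k - e (k + 1)‖ ≤ η := by
    intro k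
    simp only [e]
    rw [norm_exp_sub]
    have : π * k / n - π * ((k + 1 : ℕ) : ℝ) / n = -(π / n) := by
      push_cast
      ring
    rw [this, ch_neg]
    unfold ch
    have b := abs_sin_le_abs (x := π / n / 2)
    rw [abs_of_nonneg (by positivity : 0 ≤ π / n / 2)] at b
    rw [abs_mul]
    norm_num
    linarith
  have e3 : ∀ k, ‖e k - -e k‖ = 2 := by
    intro k
    rw [sub_neg_eq_add, ← two_mul, norm_mul, e1]
    simp
  have en : e n = -e 0 := by
    simp only [e]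
    rw [mul_div_assoc, div_self n0.ne']
    simp [mul_comm Complex.I]
  have step : ∀ a a' : ℂ, ‖a‖ ≤ 1 → ‖a'‖ ≤ 1 → ‖a - -a‖ = 2 → ‖a' - -a'‖ = 2 →
      ‖a - a'‖ ≤ η → b < G a - G (-a) → b < G a' - G (-a') := by
    intro a a' ha ha' h2 h2' hc hG
    have hb : ‖-a‖ ≤ 1 := by rwa [norm_neg]
    have hb' : ‖-a'‖ ≤ 1 := by rwa [norm_neg]
    have hc' : ‖-a - -a'‖ ≤ η := by
      rw [← neg_sub', norm_neg]
      exact hc
    have c1 := abs_lt.1 (G2 a a' ha ha' hc)
    have c2 := abs_lt.1 (G2 (-a) (-a') hb hb' hc')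
    have c3 := far a' (-a') ha' hb' (by linarith)
    have c4 := far a (-a') ha hb' (by
      have := norm_sub_le_norm_sub_add_norm_sub a (-a') (-a)
      rw [norm_sub_rev (-a') (-a)] at this
      linarith)
    rcases lt_abs.1 c3 with d1 | d1
    · exact d1
    · exfalso
      rcases lt_abs.1 c4 with d2 | d2 <;> linarith
  have s1 : b < G (e 0) - G (-e 0) → ∀ k, b < G (e k) - G (-e k) := by
    intro h0 k
    induction k with
    | zero => exact h0
    | succ k ih => exact step _ _ (e1' _) (e1' _) (e3 _) (e3 _) (e2 k) ih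
  have s2 : b < G (-e 0) - G (e 0) → ∀ k, b < G (-e k) - G (e k) := by
    intro h0 k
    induction k with
    | zero => exact h0
    | succ k ih =>
      have := step (-e k) (-e (k + 1)) (e2' _) (e2' _)
        (by rw [neg_neg, norm_sub_rev, ← e3 k])
        (by rw [neg_neg, norm_sub_rev, ← e3 (k + 1)])
        (by rw [← neg_sub', norm_neg]; exact e2 k) (by rw [neg_neg]; exact ih)
      rwa [neg_neg] at this
  have f0 := far (e 0) (-e 0) (e1' _) (e2' _) (by rw [e3]; linarith)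
  rcases lt_abs.1 f0 with d | d
  · have := s1 d n
    rw [en, neg_neg] at this
    linarith
  · have := s2 (by linarith) n
    rw [en, neg_neg] at this
    linarith

theorem lower (G : ℂ → ℝ) (D : ℝ) (hD : D < 4 / 3)
    (hdis : ∀ u v, ‖u‖ ≤ 1 → ‖v‖ ≤ 1 → |(‖u - v‖ - |G u - G v|)| ≤ D) : False := by
  refine zigzag G (2 / 3) ((4 / 3 - D) / 2) (by linarith) ?_ ?_
  · intro u v hu hv h
    have := (abs_le.1 (hdis u v hu hv)).1
    rw [abs_sub_comm]
    linarith
  · intro u v hu hv h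
    have := (abs_le.1 (hdis u v hu hv)).2
    linarith

end Pool.Agent.H.MP_fcccf2_gt
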