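import Pool.Agent.H.MP_431f4e_gt.Upp

namespace Pool.Agent.H.MP_fcccf2_gt

open Real Set ComplexConjugate Pool.Agent.H.MP_431f4e_gt

noncomputable def g (x y : ℝ) : ℝ := (1 + x + 0.22 * y ^ 2) / 3

theorem g_bounds {x y : ℝ} (hxy : x ^ 2 + y ^ 2 ≤ 1) : 0 ≤ g x y ∧ g x y ≤ 2 / 3 := by
  obtain ⟨x1, x2, -, -⟩ := disc hxy
  have y0 := sq_nonneg y
  unfold g
  constructor
  · linarith
  · nlinarith [sq_nonneg (1 - x)]

theorem K0 {a p b r d : ℝ} (hu : a ^ 2 + p ^ 2 ≤ 1) (hv : b ^ 2 + r ^ 2 ≤ 1)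
    (hp : 0 ≤ p) (hr : 0 ≤ r) (hab : b ≤ a) (hd : d ^ 2 = (a - b) ^ 2 + (p - r) ^ 2)
    (hd1 : 4 / 3 < d) : 0.88 ≤ a - b ∧ d - 4 / 3 ≤ g a p - g b r := by
  obtain ⟨-, a1, p1, p4⟩ := disc hu
  obtain ⟨b1, -, r1, r4⟩ := disc hv
  have hX : 0.88 ≤ a - b := by
    have e1 := sq_sub_le hp hr p4 r4
    have e2 := sq_le (x := 4 / 3) (y := d) (by norm_num) hd1.le
    exact le_sq (by norm_num at e2 ⊢; linarith) (by linarith)
  refine ⟨hX, ?_⟩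
  have p2 := sq_nonneg p
  unfold g
  obtain ⟨X, hXd⟩ : ∃ X, X = a - b := ⟨_, rfl⟩
  rw [← hXd] at hd hX
  have X2 : X ≤ 2 := by linarith
  rcases le_total 1 X with h1 | h1
  · have r2 : r ^ 2 ≤ X * (2 - X) := by
      have := sq_le (x := X - 1) (y := -b) (by linarith) (by linarith)
      linarith
    have p3 : p ^ 2 ≤ X * (2 - X) := by
      have := sq_le (x := X - 1) (y := a) (by linarith) (by linarith)
      linarith
    have e1 := sq_sub_le hp hr p3 r2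
    have e2 : d ≤ 1 + X / 2 := le_sq (by linarith [sq_nonneg (1 - X / 2)]) (by linarith)
    have e3 : r ^ 2 ≤ 2 * (2 - X) := by linarith [sq_nonneg (2 - X)]
    linarith
  · have e1 := sq_sub_le hp hr p4 r4
    have e3 := sq_le (x := X) (y := 1) (by linarith) h1
    have e2 : d ≤ 1.415 := le_sq (by norm_num; linarith) (by norm_num)
    linarith

theorem K2b {a p b r : ℝ} (hu : a ^ 2 + p ^ 2 = 1) (hv : b ^ 2 + r ^ 2 = 1) :
    0 ≤ 1 - ((a - b) ^ 2 + (p + r) ^ 2) / 4 + (a + b + 0.22 * (p ^ 2 + r ^ 2)) / 3 := by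
  obtain ⟨M, hM⟩ : ∃ M, M = (1 + a * b + p * r) / 2 := ⟨_, rfl⟩
  obtain ⟨N, hN⟩ : ∃ N, N = (1 + a * b - p * r) / 2 := ⟨_, rfl⟩
  have M0 : 0 ≤ M := by linarith [sq_nonneg (a + b), sq_nonneg (p + r)]
  have M1 : M ≤ 1 := by linarith [sq_nonneg (a - b), sq_nonneg (p - r)]
  have N0 : 0 ≤ N := by linarith [sq_nonneg (a + b), sq_nonneg (p - r)]
  have hp2 : p ^ 2 = 1 - a ^ 2 := by linarith
  have hr2 : r ^ 2 = 1 - b ^ 2 := by linarith
  have eS : (a + b) ^ 2 = 4 * M * N := by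
    have : (p * r) ^ 2 = (1 - a ^ 2) * (1 - b ^ 2) := by rw [mul_pow, hp2, hr2]
    rw [hM, hN]
    linear_combination this
  have eN : 1 - ((a - b) ^ 2 + (p + r) ^ 2) / 4 = N := by
    rw [hN]
    linear_combination (-1 / 4) * hu + (-1 / 4) * hv
  have eQ : p ^ 2 + r ^ 2 = 2 * M + 2 * N - 4 * M * N := by
    rw [← eS, hM, hN]
    linear_combination hu + hv
  rw [eN, eQ]
  have MN : M * N ≤ 1 * N := mul_le_mul_of_nonneg_right M1 N0
  have MN0 : 0 ≤ M * N := mul_nonneg M0 N0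
  have key : -(a + b) ≤ 2.56 * N + 0.44 * M := by
    refine le_sq ?_ (by linarith)
    rw [neg_sq, eS]
    linarith [sq_nonneg (2.56 * N - 0.44 * M)]
  linarith

theorem K2 {a p b r d : ℝ} (hu : a ^ 2 + p ^ 2 ≤ 1) (hv : b ^ 2 + r ^ 2 ≤ 1)
    (hp : 0 ≤ p) (hr : 0 ≤ r) (hd : d ^ 2 = (a - b) ^ 2 + (p + r) ^ 2) :
    d - 4 / 3 ≤ g a p + g b r := by
  have ha : 0 ≤ 1 - a ^ 2 := by linarith [sq_nonneg p]
  have hb : 0 ≤ 1 - b ^ 2 := by linarith [sq_nonneg r]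
  have q1 : √(1 - a ^ 2) ^ 2 = 1 - a ^ 2 := sq_sqrt ha
  have q2 : √(1 - b ^ 2) ^ 2 = 1 - b ^ 2 := sq_sqrt hb
  have q3 : p ≤ √(1 - a ^ 2) := le_sqrt_of_sq_le (by linarith)
  have q4 : r ≤ √(1 - b ^ 2) := le_sqrt_of_sq_le (by linarith)
  generalize √(1 - a ^ 2) = p' at *
  generalize √(1 - b ^ 2) = r' at *
  have kb := K2b (a := a) (p := p') (b := b) (r := r') (by linarith) (by linarith)
  have m1 := sq_le hp q3
  have m2 := sq_le hr q4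
  have m3 : p * r ≤ p' * r' := mul_le_mul q3 q4 hr (by linarith)
  unfold g
  linarith [sq_nonneg (d - 2)]

def Up (u : ℂ) (t : ℝ) : Prop :=
  ‖u‖ ≤ 1 ∧ 0 ≤ u.im ∧ (t = g u.re u.im ∨ (u.re = 1 / 2 ∧ u.im = 1 / 2 ∧ 2 / 3 ≤ t ∧ t ≤ 1))

theorem Up.facts {t : ℝ} {u : ℂ} (U : Up u t) :
    g u.re u.im ≤ t ∧ 0 ≤ t ∧ t ≤ 1 ∧ t ≤ 2 / 3 + u.im := by
  obtain ⟨h1, h2, h3⟩ := U
  obtain ⟨g1, g2⟩ := g_bounds (disc_of h1)
  rcases h3 with h3 | ⟨-, h3, h4, h5⟩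
  · exact ⟨h3.ge, by linarith, by linarith, by linarith⟩
  · exact ⟨by linarith, by linarith, by linarith, by linarith⟩

theorem same_lo {t s : ℝ} {u v : ℂ} (U : Up u t) (V : Up v s) (hx : v.re ≤ u.re) :
    ‖u - v‖ - 4 / 3 ≤ |t - s| := by
  rcases le_or_gt ‖u - v‖ (4 / 3) with hd | hd
  · linarith [abs_nonneg (t - s)]
  have e1 : ‖u - v‖ ^ 2 = (u.re - v.re) ^ 2 + (u.im - v.im) ^ 2 := by
    rw [nsq]
    simp
  obtain ⟨k1, k2⟩ := K0 (disc_of U.1) (disc_of V.1) U.2.1 V.2.1 hx e1 hd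
  have x1 := (disc (disc_of U.1)).2.1
  have := U.facts.1
  have := le_abs_self (t - s)
  rcases V.2.2 with h3 | h3
  · linarith
  · linarith [h3.1]

theorem same {t s : ℝ} {u v : ℂ} (U : Up u t) (V : Up v s) : |(‖u - v‖ - |t - s|)| ≤ 4 / 3 := by
  obtain ⟨u1, u2, u3, u4⟩ := U.facts
  obtain ⟨v1, v2, v3, v4⟩ := V.facts
  have a3 : |t - s| ≤ 1 := abs_le.2 ⟨by linarith, by linarith⟩
  rw [abs_le]
  refine ⟨by linarith [norm_nonneg (u - v)], ?_⟩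
  rcases le_total v.re u.re with hx | hx
  · linarith [same_lo U V hx]
  · have := same_lo V U hx
    rw [norm_sub_rev, abs_sub_comm] at this
    linarith

theorem opp {t s : ℝ} {u v : ℂ} (U : Up u t) (V : Up v s) :
    |(‖u - conj v‖ - |t + s|)| ≤ 4 / 3 := by
  obtain ⟨u1, u2, u3, u4⟩ := U.facts
  obtain ⟨v1, v2, v3, v4⟩ := V.facts
  have k := K2 (disc_of U.1) (disc_of V.1) U.2.1 V.2.1 (nsq_opp u v)
  have i1 := im_le_opp u v
  rw [abs_of_nonneg (by linarith : 0 ≤ t + s), abs_le]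
  constructor <;> linarith

theorem cover {t : ℝ} (h0 : 0 ≤ t) (h1 : t ≤ 1) : ∃ u, Up u t := by
  rcases le_total (2 / 3) t with a | a
  · refine ⟨⟨1 / 2, 1 / 2⟩, le_sq ?_ (by norm_num), by norm_num, Or.inr ⟨rfl, rfl, a, h1⟩⟩
    rw [nsq]
    norm_num
  · refine ⟨((3 * t - 1 : ℝ) : ℂ), ?_, by simp, Or.inl ?_⟩
    · rw [Complex.norm_real, Real.norm_eq_abs, abs_le]
      constructor <;> linarith
    · rw [Complex.ofReal_re, Complex.ofReal_im]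
      unfold g
      ring

def Rel (u : ℂ) (t : ℝ) : Prop := Up u t ∨ Up (conj u) (-t)

theorem rel_left {u : ℂ} (hu : ‖u‖ ≤ 1) : ∃ t, |t| ≤ 1 ∧ Rel u t := by
  rcases le_total 0 u.im with a | a
  · have U : Up u (g u.re u.im) := ⟨hu, a, Or.inl rfl⟩
    exact ⟨_, abs_le.2 ⟨by linarith [U.facts.2.1], U.facts.2.2.1⟩, Or.inl U⟩
  · have U : Up (conj u) (g (conj u).re (conj u).im) :=
      ⟨by rwa [Complex.norm_conj], by simpa using a, Or.inl rfl⟩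
    refine ⟨-g (conj u).re (conj u).im, ?_, Or.inr (by rwa [neg_neg])⟩
    rw [abs_neg]
    exact abs_le.2 ⟨by linarith [U.facts.2.1], U.facts.2.2.1⟩

theorem rel_right {t : ℝ} (ht : |t| ≤ 1) : ∃ u, ‖u‖ ≤ 1 ∧ Rel u t := by
  have b := abs_le.1 ht
  rcases le_total 0 t with a | a
  · obtain ⟨u, hu⟩ := cover a b.2
    exact ⟨u, hu.1, Or.inl hu⟩
  · obtain ⟨u, hu⟩ := cover (t := -t) (by linarith) (by linarith)
    refine ⟨conj u, by rw [Complex.norm_conj]; exact hu.1, Or.inr ?_⟩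
    rwa [Complex.conj_conj]

theorem rel_dis {u v : ℂ} {t s : ℝ} (h1 : Rel u t) (h2 : Rel v s) :
    |(‖u - v‖ - |t - s|)| ≤ 4 / 3 := by
  rcases h1 with h1 | h1 <;> rcases h2 with h2 | h2
  · exact same h1 h2
  · have := opp h1 h2
    rwa [Complex.conj_conj, ← sub_eq_add_neg] at this
  · have := opp h2 h1
    rwa [Complex.conj_conj, ← sub_eq_add_neg, norm_sub_rev, abs_sub_comm s t] at this
  · have := same h1 h2
    rwa [← map_sub, Complex.norm_conj, ← neg_sub', abs_neg] at this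

end Pool.Agent.H.MP_fcccf2_gt
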